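import Pool.Agent.Lib.SmD.Near
import Pool.Agent.Lib.SmD.NN
import Pool.Agent.Lib.BSDP.R.Recip

/-!
SMITH, instance: almost all places of `k(t)` are unramified in a given finite Galois extension.
-/

set_option autoImplicit false

open Polynomial Pool.Agent.BSDFF Pool.Agent.Lib.SmD Pool.Agent.BSDP.R

namespace Pool.Agent.Sm.Inst

variable {k : Type} [Field k]

/-- finitely many places divide a nonzero polynomial -/
theorem finite_dvd {g : k[X]} (hg : g ≠ 0) :
    {v : Place k (RatFunc k) | ∃ (P : k[X]) (hP : Irreducible P), P.Monic ∧ v = placeOf P hP ∧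
      P ∣ g}.Finite := by
  classical
  have h1 : {P : k[X] | P.Monic ∧ Irreducible P ∧ P ∣ g}.Finite := by
    refine (primesOf g).finite_toSet.subset ?_
    intro P hP
    exact (mem_primesOf hg).mpr hP
  have h3 : Finite {P : k[X] | P.Monic ∧ Irreducible P ∧ P ∣ g} := h1
  refine (Set.finite_range (fun P : {P : k[X] | P.Monic ∧ Irreducible P ∧ P ∣ g} =>
    placeOf P.1 P.2.2.1)).subset ?_
  rintro v ⟨P, hP, hm, rfl, hd⟩
  exact ⟨⟨P, hm, hP, hd⟩, rfl⟩

/-- an element of `k(t)` is integral at almost all places -/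
theorem finite_not_mem (c : RatFunc k) : {v : Place k (RatFunc k) | c ∉ v.ring}.Finite := by
  refine ((Set.finite_singleton (placeInfty k)).union
    (finite_dvd (RatFunc.denom_ne_zero c))).subset ?_
  intro v hv
  rcases place_cases v with rfl | ⟨P, hP, hm, rfl⟩
  · exact Or.inl rfl
  · right
    refine ⟨P, hP, hm, rfl, ?_⟩
    by_contra hd
    apply hv
    have h1 := RatFunc.num_div_denom c
    rw [← h1, div_eq_mul_inv]
    refine mul_mem (poly_mem _ (X_mem_placeOf P hP) _) ?_
    have h3 := (polyHom_unit_iff _ (X_mem_placeOf P hP) hP (nonunit_placeOf P hP) c.denom).2 hd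
    obtain ⟨y, hy⟩ := h3.exists_right_inv
    have h4 : algebraMap k[X] (RatFunc k) c.denom * (y : RatFunc k) = 1 :=
      congrArg (fun z : (placeOf P hP).ring => (z : RatFunc k)) hy
    rw [inv_eq_of_mul_eq_one_right h4]
    exact y.2

variable {Om : Type} [Field Om] [Algebra (RatFunc k) Om]

/-- an element integral over the place below lies in the place -/
theorem mem_of_minpoly {w : ValuationSubring Om} {x : Om} (hx : IsIntegral (RatFunc k) x)
    (h : ∀ i, (minpoly (RatFunc k) x).coeff i ∈ below (RatFunc k) w) : x ∈ w := by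
  apply mem_of_isIntegral (RatFunc k) w x
  have hsub : (↑(minpoly (RatFunc k) x).coeffs : Set (RatFunc k)) ⊆
      ((below (RatFunc k) w).toSubring : Set (RatFunc k)) := by
    intro c hc
    obtain ⟨i, -, rfl⟩ := Polynomial.mem_coeffs_iff.mp (Finset.mem_coe.mp hc)
    exact h i
  refine ⟨(minpoly (RatFunc k) x).toSubring (below (RatFunc k) w).toSubring hsub,
    (Polynomial.monic_toSubring _ _ _).mpr (minpoly.monic hx), ?_⟩
  have h1 : ((minpoly (RatFunc k) x).toSubring (below (RatFunc k) w).toSubring hsub).map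
      (below (RatFunc k) w).toSubring.subtype = minpoly (RatFunc k) x :=
    Polynomial.map_toSubring _ _ _
  have h3 := minpoly.aeval (RatFunc k) x
  rw [← h1, Polynomial.aeval_def, Polynomial.eval₂_map] at h3
  exact h3

/-- an algebraic element is integral at almost all places -/
theorem finite_not_mem_ab [Algebra.IsAlgebraic (RatFunc k) Om] (x : Om) :
    {v : Place k (RatFunc k) | x ∉ ab Om v}.Finite := by
  have hx : IsIntegral (RatFunc k) x := (Algebra.IsAlgebraic.isAlgebraic x).isIntegral
  refine (Set.Finite.biUnion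
    (Finset.finite_toSet (Finset.range ((minpoly (RatFunc k) x).natDegree + 1)))
    (fun i _ => finite_not_mem ((minpoly (RatFunc k) x).coeff i))).subset ?_
  intro v hv
  by_contra hcon
  apply hv
  apply mem_of_minpoly hx
  intro i
  rw [below_ab]
  by_cases hi : i ∈ Finset.range ((minpoly (RatFunc k) x).natDegree + 1)
  · by_contra hc
    exact hcon (Set.mem_biUnion (x := i) (Finset.mem_coe.mpr hi) hc)
  · rw [Finset.mem_range, not_lt] at hi
    rw [Polynomial.coeff_eq_zero_of_natDegree_lt (by omega)]
    exact zero_mem _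

/-- a nonzero algebraic element is a unit at almost all places -/
theorem finite_val_ne_one [Algebra.IsAlgebraic (RatFunc k) Om] {x : Om} (hx : x ≠ 0) :
    {v : Place k (RatFunc k) | (ab Om v).valuation x ≠ 1}.Finite := by
  refine ((finite_not_mem_ab x).union (finite_not_mem_ab x⁻¹)).subset ?_
  intro v hv
  by_contra hcon
  simp only [Set.mem_union, Set.mem_ofPred_eq, not_or, not_not] at hcon
  apply hv
  obtain ⟨h1, h3⟩ := hcon
  rw [← ValuationSubring.valuation_le_one_iff] at h1 h3
  rw [map_inv₀] at h3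
  refine le_antisymm h1 ?_
  rwa [inv_le_one₀ (zero_lt_iff.mpr (((ab Om v).valuation.ne_zero_iff).mpr hx))] at h3

/-- **almost all places are unramified in a finite extension** -/
theorem finite_ram [IsGalois (RatFunc k) Om] (L : IntermediateField (RatFunc k) Om)
    [FiniteDimensional (RatFunc k) L] :
    {v : Place k (RatFunc k) | ¬ iner (RatFunc k) (ab Om v) ≤ L.fixingSubgroup}.Finite := by
  classical
  have halg : Algebra.IsAlgebraic (RatFunc k) Om := inferInstance
  let b := Module.finBasis (RatFunc k) L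
  -- the differences of conjugates
  let Δ : Fin (Module.finrank (RatFunc k) L) → Set Om := fun i =>
    {y | y ∈ (minpoly (RatFunc k) (b i : Om)).rootSet Om ∧ y ≠ (b i : Om)}
  have hΔ : ∀ i, (Δ i).Finite := fun i =>
    (Polynomial.rootSet_finite _ _).subset fun y hy => hy.1
  have hA : (⋃ i, {v : Place k (RatFunc k) | (b i : Om) ∉ ab Om v}).Finite :=
    Set.finite_iUnion fun i => finite_not_mem_ab _
  have hB : (⋃ i, ⋃ y ∈ Δ i, {v : Place k (RatFunc k) |
      (ab Om v).valuation (y - (b i : Om)) ≠ 1}).Finite :=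
    Set.finite_iUnion fun i => (hΔ i).biUnion fun y hy => finite_val_ne_one (sub_ne_zero.mpr hy.2)
  refine (hA.union hB).subset ?_
  intro v hv
  by_contra hcon
  rw [Set.mem_union, not_or] at hcon
  obtain ⟨c1, c2⟩ := hcon
  apply hv
  intro s hs
  rw [IntermediateField.mem_fixingSubgroup_iff]
  have hb : ∀ i, s (b i : Om) = (b i : Om) := by
    intro i
    by_contra hne
    have hmem : (b i : Om) ∈ ab Om v := by
      by_contra hc
      exact c1 (Set.mem_iUnion.mpr ⟨i, hc⟩)
    have hlt := hs.2 _ hmem
    have hroot : s (b i : Om) ∈ Δ i := by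
      refine ⟨?_, hne⟩
      rw [Polynomial.mem_rootSet]
      refine ⟨minpoly.ne_zero (Algebra.IsAlgebraic.isAlgebraic (R := RatFunc k)
        (b i : Om)).isIntegral, ?_⟩
      have h1 := Polynomial.aeval_algHom_apply (s : Om →ₐ[RatFunc k] Om) (b i : Om)
        (minpoly (RatFunc k) (b i : Om))
      rw [minpoly.aeval, map_zero] at h1
      exact h1
    have hone : (ab Om v).valuation (s (b i : Om) - (b i : Om)) = 1 := by
      by_contra hc
      exact c2 (Set.mem_iUnion.mpr ⟨i, Set.mem_biUnion hroot hc⟩)
    rw [hone] at hlt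
    exact lt_irrefl _ hlt
  intro x hx
  have h1 := b.sum_repr ⟨x, hx⟩
  have h3 : x = ∑ i, (b.repr ⟨x, hx⟩ i) • (b i : Om) := by
    have := congrArg (Subtype.val) h1
    simp only [IntermediateField.coe_sum, IntermediateField.coe_smul] at this
    exact this.symm
  rw [h3, map_sum]
  exact Finset.sum_congr rfl fun i _ => by rw [map_smul, hb i]

/-- the field `unr` of `Sys.Ok`, for the whole inertia groups -/
theorem finite_iner_not_le [IsGalois (RatFunc k) Om] {N : Subgroup (Om ≃ₐ[RatFunc k] Om)}
    (hN : N ∈ Pool.Agent.SmD.NN (RatFunc k) Om) :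
    {v : Place k (RatFunc k) | ¬ iner (RatFunc k) (ab Om v) ≤ N}.Finite := by
  obtain ⟨L, hfd, -, -, rfl⟩ := Pool.Agent.SmD.exists_field_of_mem_NN hN
  exact finite_ram L

end Pool.Agent.Sm.Inst
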