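import Pool.Agent.Lib.Sm.G.Sys
import Pool.Agent.Lib.Sm.Inst.Unr
import Pool.Agent.Lib.SM.E.FinTor
import Pool.Agent.Lib.SM.E.FinCl
import Pool.Agent.Lib.SM.E.Iso
import Pool.Agent.Lib.SmD.PlcLoc
import Pool.Agent.Lib.SmD.LocV
import Pool.Agent.Lib.SmF.DualV

/-!
SMITH over `F_q(t)`: the instance of the abstract structure `Sys` for the curve
`y ^ 2 = x (x - α) (x - β)` over `k(t)`, and `Sys.Ok` for it (the Hasse principle is a hypothesis
here).
-/

set_option autoImplicit false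

open Polynomial Pool.Agent.BSDFF Pool.Agent.Lib.SmD Pool.Agent.SmithE Pool.Agent.BSDP.R

namespace Pool.Agent.Sm.Inst

variable {k : Type} [Field k]

theorem two_K (h2 : (2 : k) ≠ 0) : (2 : RatFunc k) ≠ 0 := SmF.two_ratFunc h2

theorem zero_ne_map {f : k[X]} (hf : f ≠ 0) : (0 : RatFunc k) ≠ algebraMap k[X] (RatFunc k) f := by
  intro h
  apply hf
  apply IsFractionRing.injective k[X] (RatFunc k)
  rw [← h, map_zero]

theorem map_ne_map {f g : k[X]} (h : f ≠ g) :
    algebraMap k[X] (RatFunc k) f ≠ algebraMap k[X] (RatFunc k) g :=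
  fun h' => h (IsFractionRing.injective k[X] (RatFunc k) h')

open scoped Classical in
/-- The abstract structure for `y ^ 2 = x (x - α) (x - β)` over `k(t)`. -/
noncomputable def sysOf (Ω : Type) [Field Ω] [Algebra (RatFunc k) Ω] {α β : k[X]}
    (h2 : (2 : k) ≠ 0) (hα : α ≠ 0) (hβ : β ≠ 0) (hαβ : α ≠ β) :
    Sys (Ω ≃ₐ[RatFunc k] Ω)
      (VV Ω (0 : RatFunc k) (algebraMap k[X] (RatFunc k) α) (algebraMap k[X] (RatFunc k) β))
      (Place k (RatFunc k)) where
  NN := SmD.NN (RatFunc k) Ω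
  D := fun v => dv Ω v
  phi := fun v => ph Ω v
  sg := fun v => sg Ω v
  eps := fun v => SmF.eps v
  iota := iota (two_K h2) (zero_ne_map hα) (zero_ne_map hβ) (map_ne_map hαβ) Ω
  good := {v | ∃ (P : k[X]) (hP : Irreducible P), P.Monic ∧ v = placeOf P hP ∧
    ¬ P ∣ α * β * (α - β)}
  inf := placeInfty k

section ok

variable [Finite k] {Ω : Type} [Field Ω] [Algebra (RatFunc k) Ω]

omit [Finite k] in
theorem resCard_ab (v : Place k (RatFunc k)) : resCard (below (RatFunc k) (ab Ω v)) =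
    Nat.card (IsLocalRing.ResidueField v.ring) := by
  rw [below_ab]
  rfl

theorem exists_half_resCard (h2 : (2 : k) ≠ 0) (v : Place k (RatFunc k)) : ∃ m : ℕ,
    resCard (below (RatFunc k) (ab Ω v)) = 2 * m + 1 ∧ SmF.eps v = (m : ZMod 2) := by
  have hfin : Finite (IsLocalRing.ResidueField (below (RatFunc k) (ab Ω v))) := by
    rw [below_ab]
    exact finite_residue v
  have : Fintype (IsLocalRing.ResidueField (below (RatFunc k) (ab Ω v))) := Fintype.ofFinite _
  have hodd : Odd (resCard (below (RatFunc k) (ab Ω v))) := by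
    rw [resCard, Nat.card_eq_fintype_card, Nat.odd_iff]
    exact FiniteField.odd_card_of_char_ne_two (ringChar_residue (val_two h2 v))
  obtain ⟨m, hm⟩ := hodd
  refine ⟨m, hm, ?_⟩
  unfold SmF.eps
  rw [← resCard_ab (Ω := Ω) v, hm]
  congr 1
  omega

omit [Finite k] in
open scoped Classical in
/-- the curve has good reduction at the good places: `E2` -/
theorem good_triv_iner (h2 : (2 : k) ≠ 0) {α β : k[X]} {P : k[X]} (hP : Irreducible P)
    (hgood : ¬ P ∣ α * β * (α - β)) {s : Ω ≃ₐ[RatFunc k] Ω}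
    (hs : s ∈ iner (RatFunc k) (ab Ω (placeOf P hP)))
    (Q : VV Ω (0 : RatFunc k) (algebraMap k[X] (RatFunc k) α) (algebraMap k[X] (RatFunc k) β)) :
    s • Q = Q := by
  have d1 : ¬ P ∣ α := fun h => hgood (Dvd.dvd.mul_right (Dvd.dvd.mul_right h _) _)
  have d2 : ¬ P ∣ β := fun h => hgood (Dvd.dvd.mul_right (Dvd.dvd.mul_left h _) _)
  have d3 : ¬ P ∣ α - β := fun h => hgood (Dvd.dvd.mul_left h _)
  refine iner_fix_VV (w := ab Ω (placeOf P hP)) (val_two h2 _) ?_ (val_poly_le P hP α)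
    (val_poly_le P hP β) ?_ ?_ ?_ hs Q
  · rw [map_zero, map_zero]
    exact zero_le
  · rw [zero_sub, map_neg, Valuation.map_neg]
    exact val_poly_eq_one hP d1
  · rw [zero_sub, map_neg, Valuation.map_neg]
    exact val_poly_eq_one hP d2
  · rw [← map_sub]
    exact val_poly_eq_one hP d3

open scoped Classical in
/-- **All hypotheses of the abstract part**, given the Hasse principle. -/
theorem sysOf_ok_of [IsSepClosure (RatFunc k) Ω] {α β : k[X]}
    (h2 : (2 : k) ≠ 0) (hα : α ≠ 0) (hβ : β ≠ 0) (hαβ : α ≠ β)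
    (hasse : ∀ c : (Ω ≃ₐ[RatFunc k] Ω) → (Ω ≃ₐ[RatFunc k] Ω) → ZMod 2,
      (sysOf Ω h2 hα hβ hαβ).TF2 c →
      (∀ s t w, c s t + c (s * t) w = c t w + c s (t * w)) →
      (∀ v, ∃ b : (Ω ≃ₐ[RatFunc k] Ω) → ZMod 2,
        (sysOf Ω h2 hα hβ hαβ).TFOn ((sysOf Ω h2 hα hβ hαβ).D v) b ∧
        ∀ s ∈ (sysOf Ω h2 hα hβ hαβ).D v, ∀ t ∈ (sysOf Ω h2 hα hβ hαβ).D v,
          c s t = b s + b t + b (s * t)) →
      ∃ b : (Ω ≃ₐ[RatFunc k] Ω) → ZMod 2,
        (sysOf Ω h2 hα hβ hαβ).TF b ∧ ∀ s t, c s t = b s + b t + b (s * t)) :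
    (sysOf Ω h2 hα hβ hαβ).Ok := by
  have : IsSepClosed Ω := IsSepClosure.sep_closed (RatFunc k)
  have : IsGalois (RatFunc k) Ω := inferInstance
  have H := locVals (k := k) (Om := Ω) h2
  have h20 : (2 : Ω) ≠ 0 := SmF.two_ne_zero' (two_K h2)
  have hfg : α * β * (α - β) ≠ 0 := mul_ne_zero (mul_ne_zero hα hβ) (sub_ne_zero.mpr hαβ)
  refine
    { top_mem := SmD.top_mem_NN
      inf_mem := fun N hN N' hN' => SmD.inf_mem_NN hN hN'
      normal := fun N hN => SmD.NN.normal hN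
      two_pow := fun N hN => hN.2.2
      phi_mem := fun v => ph_mem v
      sg_mem := fun v => sg_mem h2 v
      iota_inj := iota_injective _ _ _ _
      iota_range := iota_range _ _ _ _
      iota_fix := iota_fix _ _ _ _
      half := half_VV (two_K h2) (zero_ne_map hα) (zero_ne_map hβ) (map_ne_map hαβ)
      tors := tors_VV
      act_fin := act_fin (two_K h2) (zero_ne_map hα) (zero_ne_map hβ) (map_ne_map hαβ)
      unr := fun N hN => (finite_iner_not_le hN).subset fun v hv hle => hv (hle (sg_iner h2 v))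
      good_fin := ?_
      good_triv := ?_
      inf_not_good := ?_
      homD := fun v c h1 h3 h4 h5 => homD h2 v c h1 h3 h4 h5
      hasse := hasse
      recip := fun c d hc hd => H.recip h2 c d hc hd
      corr := ?_
      dual := ?_
      fin_inv := ?_
      isot := ?_ }
  · refine ((Set.finite_singleton (placeInfty k)).union (finite_dvd hfg)).subset ?_
    intro v hv
    rcases place_cases v with rfl | ⟨P, hP, hm, rfl⟩
    · exact Or.inl rfl
    · right
      refine ⟨P, hP, hm, rfl, ?_⟩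
      by_contra hd
      exact hv ⟨P, hP, hm, rfl, hd⟩
  · rintro v ⟨P, hP, hm, rfl, hd⟩ Q
    exact good_triv_iner h2 hP hd (sg_iner h2 _) Q
  · rintro ⟨P, hP, hm, h, -⟩
    exact SmF.placeInfty_ne hP h
  · intro w hw
    obtain ⟨c, h1, h3, h4⟩ := H.corr h2 (hw.toFinset.erase (placeInfty k))
      (Finset.notMem_erase _ _) w
    refine ⟨c, h1, fun v hv => ?_⟩
    by_cases h0 : w v = 0
    · rw [h0]
      refine h4 v ?_ hv
      rw [Finset.mem_erase, not_and]
      intro _ h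
      exact (hw.mem_toFinset.mp h) h0
    · refine h3 v ?_
      rw [Finset.mem_erase]
      exact ⟨hv, hw.mem_toFinset.mpr h0⟩
  · intro W h1 h3 h4 xi h5 h6
    exact H.dual h2 W h1 h3 h4 xi h5 h6
  · intro chi _ v
    obtain ⟨π, hπ, hL⟩ := exists_locHyp (Om := Ω) h2 v
    have hval : ∀ x : Ω, x ≠ 0 → (∀ s ∈ dec (RatFunc k) (ab Ω v), s x = x) →
        ∃ n : ℤ, (ab Ω v).valuation x =
          (ab Ω v).valuation (algebraMap (RatFunc k) Ω (π : RatFunc k)) ^ n :=
      fun x hx hfix => value_iner hL hx fun σ hσ => hfix σ (iner_le_dec _ _ hσ)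
    exact finite_fixed (w := ab Ω v) (val_two h2 v) (zero_ne_map hα) (zero_ne_map hβ)
      (map_ne_map hαβ) (fin_classes hL (ph_frob v) hval) (exists_small hL) chi
  · rintro chi hchi v x ⟨Q, -, hx1, hx2⟩ y ⟨Q', -, hy1, hy2⟩
    obtain ⟨f, hf, hchi'⟩ := SmF.kummer (two_K h2) (c := chi) hchi
    obtain ⟨d, hd⟩ := SmF.exists_sqrt (Ω := Ω) (two_K h2) f
    have hd0 : d ≠ 0 := by
      rintro rfl
      apply hf
      apply (algebraMap (RatFunc k) Ω).injective
      rw [← hd, map_zero]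
      simp
    have hsg : ∀ s : Ω ≃ₐ[RatFunc k] Ω, Sg s d (chi s) := by
      intro s
      rw [Sg, SmF.chi_spec hd s, ← hchi']
      rcases zcases (chi s) with h | h
      · rw [h]
        simp [sgn]
      · rw [h, ZMod.val_one]
        simp [sgn]
    obtain ⟨m, hm, hm'⟩ := exists_half_resCard (Ω := Ω) h2 v
    change Sm.sym (SmF.eps v) x y = 0
    rw [hm']
    exact isotropic (two_K h2) (zero_ne_map hα) (zero_ne_map hβ) (map_ne_map hαβ)
      (val_two h2 v) (sg_iner h2 v) (ph_frob v) hm hd0 (hsg _) (hsg _) Q Q' x y hx1 hx2 hy1 hy2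

end ok

end Pool.Agent.Sm.Inst
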