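import Pool.Agent.Lib.Sm.Inst.Inst
import Pool.Agent.Lib.Sm.I.ChOk
import Pool.Agent.Lib.SM.E.KapJ

/-!
SMITH over `F_q(t)`: the facts `ChOk` on the quadratic characters for the instance `sysOf`, the
characters `chP Ω f = chi (RatFunc k) f` and the data `twd u hu h` of the curve
`y ^ 2 = x (x - α) (x - β)`.
-/

set_option autoImplicit false

open Polynomial Pool.Agent.BSDFF Pool.Agent.Lib.SmD Pool.Agent.SmithE Pool.Agent.BSDP.R

namespace Pool.Agent.Sm.Inst

variable {k : Type} [Field k]

open scoped Classical in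
/-- The place of a monic irreducible polynomial (`∞` for the other polynomials). -/
noncomputable def plF (P : k[X]) : Place k (RatFunc k) :=
  if h : Irreducible P then placeOf P h else placeInfty k

theorem plF_eq {P : k[X]} (h : Irreducible P) : plF P = placeOf P h := by
  rw [plF, dif_pos h]

open scoped Classical in
/-- **`ChOk` for the concrete data.** -/
theorem chOk [Finite k] {Ω : Type} [Field Ω] [Algebra (RatFunc k) Ω]
    [IsSepClosure (RatFunc k) Ω] {α β : k[X]} (h2 : (2 : k) ≠ 0) (hα : α ≠ 0) (hβ : β ≠ 0)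
    (hαβ : α ≠ β) {u : k} (hu : ¬ IsSquare u) (h : NoFour α β) :
    ChOk (sysOf Ω h2 hα hβ hαβ) (chP Ω) (twd u hu h) plF := by
  have h2K := two_K h2
  have H := locVals (k := k) (Om := Ω) h2
  have hinj : ∀ {f : k[X]}, f ≠ 0 → algebraMap k[X] (RatFunc k) f ≠ 0 := fun hf => rf_ne_zero hf
  have hu0 : u ≠ 0 := by rintro rfl; exact hu ⟨0, by simp⟩
  refine
    { two := h2
      hom := fun f hf => SmF.chi_homG h2K (hinj hf)
      mul := ?_
      kummer := ?_
      cst := ?_
      u_ne := ?_
      pl_inj := ?_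
      pl_inf := ?_
      pl_cases := ?_
      good := ?_
      sg_self := ?_
      sg_off := ?_
      ph := ?_
      inf_sg := ?_
      inf_phi := ?_
      tor := ?_ }
  · intro f g hf hg s
    change chi (RatFunc k) (algebraMap k[X] (RatFunc k) (f * g)) s = _
    rw [map_mul]
    exact SmF.chi_mul_elt h2K (hinj hf) (hinj hg) s
  · intro c hc
    obtain ⟨f, hf, h1⟩ := SmF.kummer h2K (c := c) hc
    have hn : f.num ≠ 0 := RatFunc.num_ne_zero hf
    have hd : f.denom ≠ 0 := RatFunc.denom_ne_zero f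
    refine ⟨f.num * f.denom, mul_ne_zero hn hd, fun s => ?_⟩
    rw [h1 s]
    change _ = chi (RatFunc k) (algebraMap k[X] (RatFunc k) (f.num * f.denom)) s
    conv_lhs => rw [← RatFunc.num_div_denom f, div_eq_mul_inv]
    rw [map_mul, SmF.chi_mul_elt h2K (hinj hn) (inv_ne_zero (hinj hd)),
      SmF.chi_mul_elt h2K (hinj hn) (hinj hd), SmF.chi_inv h2K (hinj hd)]
  · intro c hc
    by_cases hs : IsSquare c
    · left
      obtain ⟨d, hd⟩ := hs
      intro s
      have hd0 : d ≠ 0 := by
        rintro rfl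
        rw [mul_zero] at hd
        exact hc hd
      change chi (RatFunc k) (algebraMap k[X] (RatFunc k) (C c)) s = 0
      rw [hd, C_mul, map_mul, ← sq]
      exact SmF.chi_sq h2K (hinj (C_ne_zero.mpr hd0)) s
    · right
      intro s
      have h4 := chi_const (Ω := Ω) h2K hu (f := C c) (C_ne_zero.mpr hc) s
      rw [leadingCoeff_C] at h4
      have h5 : lcz (C c) = 1 := by
        unfold lcz
        rw [leadingCoeff_C, if_neg hs]
      rw [h5, one_mul] at h4
      exact h4
  · by_contra hcon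
    push Not at hcon
    have h4 := (SmF.chi_eq_zero_iff (Ω := Ω) h2K (hinj (C_ne_zero.mpr hu0))).1 hcon
    obtain ⟨r, hr⟩ := h4
    -- a constant which is a square in `k(t)` is a square in `k`
    have h5 : ∀ s : Ω ≃ₐ[RatFunc k] Ω,
        chi (RatFunc k) (algebraMap k[X] (RatFunc k) (C u)) s = 0 := hcon
    have h6 := h5 (ph Ω (placeInfty k))
    rw [SmF.polyC, H.ph_const_infty hu0, SmF.sq2_eq_zero] at h6
    exact hu h6
  · intro P Q hP hPi hQ hQi hPQ
    rw [plF_eq hPi, plF_eq hQi] at hPQ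
    exact placeOf_injective hPi hQi hP hQ hPQ
  · intro P hP hPi hh
    rw [plF_eq hPi] at hh
    exact SmF.placeInfty_ne hPi hh.symm
  · intro v
    rcases place_cases v with rfl | ⟨P, hP, hm, rfl⟩
    · exact Or.inl rfl
    · exact Or.inr ⟨P, hm, hP, (plF_eq hP).symm⟩
  · intro P hP hPi
    rw [plF_eq hPi]
    have h7 := twd_ell_iff hu h hP hPi
    constructor
    · rintro ⟨Q, hQ, hQm, hQP, hnd⟩ i hi
      have h8 : P = Q := placeOf_injective hPi hQ hP hQm hQP
      rw [← h8] at hnd
      exact hnd (h7.1 ⟨i, hi.symm⟩)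
    · intro hne
      refine ⟨P, hPi, hP, rfl, fun hd => ?_⟩
      obtain ⟨i, hi⟩ := h7.2 hd
      exact hne i hi.symm
  · intro P hP hPi
    rw [plF_eq hPi]
    exact H.sg_self hPi
  · intro P f hP hPi hnd
    rw [plF_eq hPi]
    exact H.sg_of_not_dvd hPi hnd
  · intro P f hP hPi hnd
    rw [plF_eq hPi]
    exact H.ph_leg hPi hnd
  · intro P Q hP hQ hdeg
    have h8 := H.sg_infty h2 hP
    have h9 := H.sg_infty h2 hQ
    rw [hdeg] at h8
    exact h8.trans h9.symm
  · intro P Q hP hQ hdeg
    have h8 := H.ph_infty h2 hP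
    have h9 := H.ph_infty h2 hQ
    rw [hdeg] at h8
    exact h8.trans h9.symm
  · intro w z hz s
    have h8 := E5 h2K hu h (zero_ne_map hα) (zero_ne_map hβ) (map_ne_map hαβ) (fun _ => 0) z w hz s
    have h9 : Pool.Agent.Sm.dl (fun _ : Ω ≃ₐ[RatFunc k] Ω => (0 : ZMod 2)) z s = s • z - z := by
      simp [dl, tw, sgn]
    rw [h9] at h8
    rw [h8]
    congr 1
    rw [zero_smul, zero_add, add_comm]
    rfl

end Pool.Agent.Sm.Inst
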